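import Pool.Agent.Helper58.SF.StN

/-!
# Project SF, module XCA: paths close to the preimage of a piece of the target arc
-/

set_option autoImplicit false

namespace Pool.Agent.Helper66.SF

open Set Topology Pool.Agent.Helper13.TR Pool.Agent.Helper58.SF
open Pool.Agent.Helper13.TW (IsArc Spl IsSCC dch Chn Splt GT CSy MP Val LR MCell StARB StARX StSCL StUAR StINF StLIN StAC1 StSDM StLRC StBF StMD1 StMD2 StMD3)

/-- `MCell` is a cell system -/
private theorem csy_XA (hMD2 : StMD2) (hMD3 : StMD3) : CSy MCell :=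
  ⟨hMD2.1, hMD2.2, hMD3⟩

/-- the chart of a cell -/
private theorem chart_XA (hCSS : StCSS) (hBF : StBF) (hMD2 : StMD2) (hMD3 : StMD3)
    {S : Type} [MetricSpace S] [LocallyPathConnectedSpace S] [PathConnectedSpace S]
    {ω : Ch S 1 → S → ℤ} {V : Set S} (hW : WN S ω V) {J : Set S} (hJ : Cel ω V J) :
    ∃ θ : ↥(cl ω J) ≃ₜ ↥(Metric.closedBall (0 : ℂ) 1),
      ∀ x : ↥(cl ω J), (x : S) ∈ J ↔ ‖(θ x : ℂ)‖ = 1 := by
  have hm : MCell (Metric.closedBall (0 : ℂ) 1) (Metric.sphere (0 : ℂ) 1) :=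
    ⟨Homeomorph.refl ℂ, by simp, by simp⟩
  obtain ⟨θ, hθ⟩ := hBF S ℂ (fun E J => Cel ω V J ∧ E = cl ω J) MCell (hCSS S ω V hW)
    (csy_XA hMD2 hMD3) (cl ω J) J (Metric.closedBall 0 1) (Metric.sphere 0 1) ⟨hJ, rfl⟩ hm
  refine ⟨θ, fun x => ?_⟩
  rw [hθ x, mem_sphere_zero_iff_norm]

private theorem thick_XA (A' : Set ℂ) (ρ : ℝ) (hρ : 0 < ρ) (hA : A' ⊆ Metric.closedBall 0 1)
    (hc : IsPreconnected A') :
    IsPreconnected (Metric.thickening ρ A' ∩ Metric.closedBall 0 1) := by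
  apply isPreconnected_of_forall_pair
  rintro x ⟨hx, hx1⟩ y ⟨hy, hy1⟩
  rw [Metric.mem_thickening_iff] at hx hy
  obtain ⟨c, hcA, hxc⟩ := hx
  obtain ⟨d, hdA, hyd⟩ := hy
  have hb : ∀ e ∈ A', IsPreconnected (Metric.ball e ρ ∩ Metric.closedBall 0 1) := fun e _ =>
    ((convex_ball e ρ).inter (convex_closedBall 0 1)).isPreconnected
  have hbs : ∀ e ∈ A', Metric.ball e ρ ∩ Metric.closedBall 0 1 ⊆
      Metric.thickening ρ A' ∩ Metric.closedBall 0 1 := by
    intro e he z hz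
    refine ⟨?_, hz.2⟩
    rw [Metric.mem_thickening_iff]
    exact ⟨e, he, hz.1⟩
  have hAs : A' ⊆ Metric.thickening ρ A' ∩ Metric.closedBall 0 1 := fun z hz =>
    ⟨Metric.self_subset_thickening hρ A' hz, hA hz⟩
  refine ⟨(Metric.ball c ρ ∩ Metric.closedBall 0 1) ∪
    (A' ∪ (Metric.ball d ρ ∩ Metric.closedBall 0 1)), ?_, ?_, ?_, ?_⟩
  · exact union_subset (hbs c hcA) (union_subset hAs (hbs d hdA))
  · exact Or.inl ⟨hxc, hx1⟩
  · exact Or.inr (Or.inr ⟨hyd, hy1⟩)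
  · refine IsPreconnected.union c ⟨Metric.mem_ball_self hρ, hA hcA⟩ (Or.inl hcA) (hb c hcA) ?_
    exact IsPreconnected.union d hdA ⟨Metric.mem_ball_self hρ, hA hdA⟩ hc (hb d hdA)

/-- relatively open preconnected subsets of a cell are path connected -/
private theorem joined_XA {S : Type} [MetricSpace S] {D : Set S}
    (θ : ↥D ≃ₜ ↥(Metric.closedBall (0 : ℂ) 1)) {f : S → ℂ} (hf : Mono D f) (A' : Set ℂ) (ρ : ℝ)
    (hρ : 0 < ρ) (hA : A' ⊆ Metric.closedBall 0 1) (hc : IsPreconnected A') (x y : S)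
    (hx : x ∈ D ∩ f ⁻¹' Metric.thickening ρ A') (hy : y ∈ D ∩ f ⁻¹' Metric.thickening ρ A') :
    JoinedIn (D ∩ f ⁻¹' Metric.thickening ρ A') x y := by
  have : LocallyPathConnectedSpace ↥(Metric.closedBall (0 : ℂ) 1) :=
    (convex_closedBall (0 : ℂ) 1).locallyPathConnectedSpace
  have : LocallyPathConnectedSpace ↥D := θ.isOpenEmbedding.locallyPathConnectedSpace
  obtain ⟨_, hfc, hfi, hfp⟩ := hf
  set U : Set ↥D := {z | f z ∈ Metric.thickening ρ A'} with hU
  have hUo : IsOpen U := by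
    have h1 : Continuous (fun z : ↥D => f z) := continuousOn_iff_continuous_domRestrict.1 hfc
    exact Metric.isOpen_thickening.preimage h1
  have himg : Subtype.val '' U = D ∩ f ⁻¹' Metric.thickening ρ A' := by
    ext z
    constructor
    · rintro ⟨w, hw, rfl⟩
      exact ⟨w.2, hw⟩
    · rintro ⟨h1, h2⟩
      exact ⟨⟨z, h1⟩, h2, rfl⟩
  have hpre : IsPreconnected (D ∩ f ⁻¹' Metric.thickening ρ A') := by
    have h1 := hfp _ inter_subset_right (thick_XA A' ρ hρ hA hc)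
    have h2 : D ∩ f ⁻¹' (Metric.thickening ρ A' ∩ Metric.closedBall 0 1) =
        D ∩ f ⁻¹' Metric.thickening ρ A' := by
      ext z
      constructor
      · rintro ⟨h3, h4⟩
        exact ⟨h3, h4.1⟩
      · rintro ⟨h3, h4⟩
        refine ⟨h3, h4, ?_⟩
        rw [← hfi]
        exact mem_image_of_mem f h3
    rwa [h2] at h1
  have hUp : IsPreconnected U := by
    rw [← himg] at hpre
    exact (IsInducing.subtypeVal.isPreconnected_image).1 hpre
  have hxU : (⟨x, hx.1⟩ : ↥D) ∈ U := hx.2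
  have hyU : (⟨y, hy.1⟩ : ↥D) ∈ U := hy.2
  have hpc : IsPathConnected U := hUo.isConnected_iff_isPathConnected.1 ⟨⟨_, hxU⟩, hUp⟩
  have h3 := (hpc.joinedIn _ hxU _ hyU).map continuous_subtype_val
  rwa [himg] at h3

theorem hXCA (hEND : StEND) (hCSS : StCSS) (hBF : StBF) (hMD2 : StMD2) (hMD3 : StMD3)
    (hTWO : StTWO) : StXCA := by
  intro S _ _ _ ω V hW J f hJ hM K g J' C' m' κ δ δ₂ η hK hKJ hgc hgi hgJ hgf hηκ hηδ hη hδδ hC1
    hCp hmC hκ hm
  obtain ⟨⟨hIo, _⟩, ⟨hOo, _⟩, hcc, _, _⟩ := hTWO S ω V hW K hK.1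
  obtain ⟨θD, _⟩ := chart_XA hCSS hBF hMD2 hMD3 hW hJ
  obtain ⟨θK, hθK⟩ := chart_XA hCSS hBF hMD2 hMD3 hW hK
  have hM' := hM
  obtain ⟨hDc, hfc, hfi, hfp⟩ := hM'
  have hδ2 : 0 < δ₂ := lt_of_lt_of_le hη hηδ
  have hδ : 0 < δ := by linarith
  have hKI : ∀ z ∈ Ins ω K, z ∉ K := fun z hz => hz.1
  have hKcl : K ⊆ cl ω K := subset_union_left
  have hIcl : Ins ω K ⊆ cl ω K := subset_union_right
  have hKclosed : IsClosed K := by
    have h1 : K = cl ω K ∩ (Ins ω K)ᶜ := by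
      ext z
      constructor
      · intro hz
        exact ⟨hKcl hz, fun h => hKI z h hz⟩
      · rintro ⟨h1 | h1, h2⟩
        · exact h1
        · exact absurd h1 h2
    rw [h1]
    exact hcc.isClosed.inter hIo.isClosed_compl
  have hKcpt : IsCompact K := hcc.of_isClosed_subset hKclosed hKcl
  have hcov : Kᶜ ⊆ Ins ω K ∪ Out ω K := by
    intro z hz
    by_cases h : z ∈ Ins ω K
    · exact Or.inl h
    · refine Or.inr ?_
      show z ∉ cl ω K
      rintro (h1 | h1)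
      · exact hz h1
      · exact h h1
  have hdis : Disjoint (Ins ω K) (Out ω K) := by
    rw [Set.disjoint_left]
    intro z hz h1
    exact h1 (hIcl hz)
  -- connected sets off K
  have hconn : ∀ B : Set S, IsPreconnected B → B ⊆ Kᶜ → (B ∩ Ins ω K).Nonempty →
      B ⊆ Ins ω K := fun B hB hBK hne =>
    IsPreconnected.subset_left_of_subset_union hIo hOo hdis (hBK.trans hcov) hne hB
  -- (1)
  have h1 : cl ω J ∩ f ⁻¹' C' ⊆ Ins ω K := by
    apply hconn _ (hfp C' hC1 hCp)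
    · intro y hy hyK
      have h2 := hgf y hyK
      have h3 := hκ (f y) hy.2 (g y) (hgJ ▸ mem_image_of_mem g hyK)
      rw [dist_comm] at h3
      linarith
    · have h2 : m' ∈ f '' cl ω J := by
        rw [hfi]
        exact hC1 hmC
      obtain ⟨x, hx, hfx⟩ := h2
      exact ⟨x, ⟨hx, by show f x ∈ C'; rw [hfx]; exact hmC⟩, hm ⟨hx, hfx⟩⟩
  refine ⟨h1, ?_, ?_⟩
  · -- (2)
    intro A' hA hAc hAC x₁ x₂ hx₁ hx₂ hf₁ hf₂
    have h2 := joined_XA θD hM A' δ hδ hA hAc x₁ x₂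
      ⟨hx₁, Metric.self_subset_thickening hδ A' hf₁⟩
      ⟨hx₂, Metric.self_subset_thickening hδ A' hf₂⟩
    refine h2.mono ?_
    rintro z ⟨hz, hz2⟩
    exact ⟨h1 ⟨hz, hAC hz2⟩, hz2⟩
  · -- (3)
    intro A' p hA hAc hpK hgp hloc x₁ hx₁ hf₁ hf₁C
    have hpD : p ∈ cl ω J := hKJ (hKcl hpK)
    have hx₁I : x₁ ∈ Ins ω K := h1 ⟨hx₁, hf₁C⟩
    have hmonoth : Metric.thickening δ₂ A' ⊆ Metric.thickening δ A' :=
      Metric.thickening_mono (by linarith) A'
    have hfp2 : f p ∈ Metric.thickening δ₂ A' := by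
      rw [Metric.mem_thickening_iff]
      refine ⟨g p, hgp, ?_⟩
      have h2 := hgf p hpK
      rw [dist_comm] at h2
      linarith
    obtain ⟨c, hc⟩ := joined_XA θD hM A' δ₂ hδ2 hA hAc x₁ p
      ⟨hx₁, Metric.self_subset_thickening hδ2 A' hf₁⟩ ⟨hpD, hfp2⟩
    set cc : ℝ → S := fun t => c.extend t with hcc'
    have hccc : Continuous cc := c.extend.continuous
    have hcc0 : cc 0 = x₁ := c.extend_zero
    have hcc1 : cc 1 = p := c.extend_one
    have hccm : ∀ t, cc t ∈ cl ω J ∩ f ⁻¹' Metric.thickening δ₂ A' := by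
      intro t
      have h2 : c.extend t ∈ range c.extend := mem_range_self t
      rw [c.extend_range] at h2
      obtain ⟨s, hs⟩ := h2
      show c.extend t ∈ _
      rw [← hs]
      exact hc s
    -- first point in K
    set T : Set ℝ := Icc 0 1 ∩ cc ⁻¹' K with hT
    have hTc : IsClosed T := isClosed_Icc.inter (hKclosed.preimage hccc)
    have hTne : T.Nonempty := ⟨1, ⟨zero_le_one, le_refl 1⟩, by show cc 1 ∈ K; rw [hcc1]; exact hpK⟩
    have hTb : BddBelow T := ⟨0, fun t ht => ht.1.1⟩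
    set τ₁ := sInf T with hτ₁
    have hτT : τ₁ ∈ T := hTc.csInf_mem hTne hTb
    have hτ0 : 0 < τ₁ := by
      rcases lt_or_eq_of_le hτT.1.1 with h2 | h2
      · exact h2
      · exfalso
        have h3 : cc τ₁ ∈ K := hτT.2
        rw [← h2, hcc0] at h3
        exact hKI x₁ hx₁I h3
    have hlow : ∀ t, 0 ≤ t → t < τ₁ → cc t ∉ K := by
      intro t ht0 ht h2
      have h3 : t ∈ T := ⟨⟨ht0, by linarith [hτT.1.2]⟩, h2⟩
      exact absurd (csInf_le hTb h3) (not_le.2 ht)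
    have hIn : ∀ t, 0 ≤ t → t < τ₁ → cc '' Icc 0 t ⊆ Ins ω K := by
      intro t ht0 ht
      apply hconn
      · exact (isPreconnected_Icc).image cc hccc.continuousOn
      · rintro _ ⟨s, hs, rfl⟩
        exact hlow s hs.1 (lt_of_le_of_lt hs.2 ht)
      · exact ⟨x₁, ⟨0, ⟨le_refl 0, ht0⟩, hcc0⟩, hx₁I⟩
    set y₁ := cc τ₁ with hy₁
    have hy₁K : y₁ ∈ K := hτT.2
    have hy₁f : f y₁ ∈ Metric.thickening δ₂ A' := (hccm τ₁).2
    have hgy₁ : g y₁ ∈ J' := hgJ ▸ mem_image_of_mem g hy₁K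
    have hgy₁' : g y₁ ∈ Metric.thickening (2 * δ₂) A' := by
      rw [Metric.mem_thickening_iff] at hy₁f ⊢
      obtain ⟨a, ha, hda⟩ := hy₁f
      refine ⟨a, ha, ?_⟩
      have h2 := hgf y₁ hy₁K
      have h3 := dist_triangle (g y₁) (f y₁) a
      linarith
    have hjoin := hloc (g y₁) hgy₁ hgy₁'
    -- transport to K
    have hres : IsClosedEmbedding (fun z : ↥K => g z) := by
      have : CompactSpace ↥K := isCompact_iff_compactSpace.1 hKcpt
      have h2 : Continuous (fun z : ↥K => g z) := continuousOn_iff_continuous_domRestrict.1 hgc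
      refine h2.isClosedEmbedding ?_
      intro a b hab
      exact Subtype.ext (hgi a.2 b.2 hab)
    set F : Set ↥K := {z | g z ∈ Metric.ball (g p) (δ / 4)} with hF
    have hFimg : (fun z : ↥K => g z) '' F = J' ∩ Metric.ball (g p) (δ / 4) := by
      ext v
      constructor
      · rintro ⟨z, hz, rfl⟩
        exact ⟨hgJ ▸ mem_image_of_mem g z.2, hz⟩
      · rintro ⟨hv, hv2⟩
        rw [← hgJ] at hv
        obtain ⟨z, hz, rfl⟩ := hv
        exact ⟨⟨z, hz⟩, hv2, rfl⟩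
    rw [← hFimg] at hjoin
    have hy₁F : (⟨y₁, hy₁K⟩ : ↥K) ∈ F := by
      have h2 := hjoin.source_mem
      rw [hFimg] at h2
      exact h2.2
    have hpF : (⟨p, hpK⟩ : ↥K) ∈ F := by
      show g p ∈ Metric.ball (g p) (δ / 4)
      exact Metric.mem_ball_self (by linarith)
    have hjK : JoinedIn F (⟨y₁, hy₁K⟩ : ↥K) ⟨p, hpK⟩ :=
      (hres.isInducing.joinedIn_image hy₁F hpF).1 hjoin
    have hjK2 := hjK.map (continuous_subtype_val)
    -- the open set W
    obtain ⟨W', hW'o, hW'⟩ := (continuousOn_iff'.1 hfc) (Metric.thickening δ A')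
      Metric.isOpen_thickening
    have hKW : Subtype.val '' F ⊆ K ∩ W' := by
      rintro _ ⟨z, hz, rfl⟩
      refine ⟨z.2, ?_⟩
      have h2 : (z : S) ∈ f ⁻¹' Metric.thickening δ A' ∩ cl ω J := by
        refine ⟨?_, hKJ (hKcl z.2)⟩
        show f z ∈ Metric.thickening δ A'
        rw [Metric.mem_thickening_iff]
        refine ⟨g p, hgp, ?_⟩
        have h3 := hgf z z.2
        rw [dist_comm] at h3
        have h4 : dist (g z) (g p) < δ / 4 := hz
        have h5 := dist_triangle (f z) (g z) (g p)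
        linarith
      rw [hW'] at h2
      exact h2.1
    obtain ⟨O, hOopen, hyO, hO⟩ := hEND S (cl ω K) K θK hθK hKcl W' y₁ p hW'o
      (hjK2.mono hKW)
    -- a point of the path close to y₁
    have hev : ∀ᶠ t in 𝓝 τ₁, cc t ∈ O := hccc.continuousAt.preimage_mem_nhds
      (hOopen.mem_nhds hyO)
    obtain ⟨ε, hε, hball⟩ := Metric.eventually_nhds_iff.1 hev
    set τ : ℝ := max (τ₁ / 2) (τ₁ - ε / 2) with hτ
    have hτlt : τ < τ₁ := max_lt (by linarith) (by linarith)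
    have hτ0' : 0 ≤ τ := le_trans (by linarith) (le_max_left _ _)
    have hτO : cc τ ∈ O := by
      apply hball
      rw [Real.dist_eq, abs_lt]
      have h2 : τ₁ - ε / 2 ≤ τ := le_max_right _ _
      constructor <;> linarith
    have hseg := hIn τ hτ0' hτlt
    have hzI : cc τ ∈ Ins ω K := hseg ⟨τ, ⟨hτ0', le_refl τ⟩, rfl⟩
    have hend := hO (cc τ) ⟨hτO, hIcl hzI, hKI _ hzI⟩
    have hfirst : JoinedIn (cc '' Icc 0 τ) x₁ (cc τ) := by
      have h2 : IsPathConnected (cc '' Icc 0 τ) :=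
        ((convex_Icc 0 τ).isPathConnected ⟨0, le_refl 0, hτ0'⟩).image hccc
      exact h2.joinedIn _ ⟨0, ⟨le_refl 0, hτ0'⟩, hcc0⟩ _ ⟨τ, ⟨hτ0', le_refl τ⟩, rfl⟩
    refine (hfirst.mono ?_).trans (hend.mono ?_)
    · rintro _ ⟨s, hs, rfl⟩
      exact Or.inl ⟨hseg ⟨s, hs, rfl⟩, hmonoth (hccm s).2⟩
    · rintro z (⟨hzW, hzE, hzK⟩ | hzp)
      · left
        have hzI' : z ∈ Ins ω K := by
          rcases hzE with h2 | h2
          · exact absurd h2 hzK
          · exact h2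
        refine ⟨hzI', ?_⟩
        have h2 : z ∈ W' ∩ cl ω J := ⟨hzW, hKJ hzE⟩
        rw [← hW'] at h2
        exact h2.1
      · exact Or.inr hzp

end Pool.Agent.Helper66.SF
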